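import Pool.Agent.Helper25.LS.Defs

/-!
# LS-NS: a compact set lies in the closed absolutely convex hull of a null sequence
-/

set_option autoImplicit false

open Filter Topology Module

noncomputable section

namespace Pool.Agent.Helper63.LS

open Pool.Agent.Helper25.LS

theorem ns : S_NS := by
  intro X _ _ _ K hK
  have h4 : ∀ n : ℕ, (0 : ℝ) < (1 / 4) ^ (n + 1) := fun n => by positivity
  choose F hFK hFfin hFcov using fun n : ℕ => hK.finite_cover_balls (h4 n)
  -- the finite sets of differences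
  let D : ℕ → Set X := fun n => Nat.rec (F 0)
    (fun n _ => {d | d ∈ (fun p : X × X => p.1 - p.2) '' (F (n + 1) ×ˢ F n) ∧
      ‖d‖ ≤ 2 * (1 / 4) ^ (n + 1)}) n
  have hD0 : D 0 = F 0 := rfl
  have hDS : ∀ n, D (n + 1) = {d | d ∈ (fun p : X × X => p.1 - p.2) '' (F (n + 1) ×ˢ F n) ∧
      ‖d‖ ≤ 2 * (1 / 4) ^ (n + 1)} := fun n => rfl
  have hDfin : ∀ n, (D n).Finite := by
    intro n
    cases n with
    | zero => exact hFfin 0
    | succ n =>
      rw [hDS]
      exact Set.Finite.subset (((hFfin (n + 1)).prod (hFfin n)).image _) (fun d hd => hd.1)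
  have hDn : ∀ n, 1 ≤ n → ∀ d ∈ D n, ‖d‖ ≤ 2 * (1 / 4) ^ n := by
    intro n hn d hd
    obtain ⟨m, rfl⟩ : ∃ m, n = m + 1 := ⟨n - 1, by omega⟩
    exact hd.2
  let S : Set (ℕ × X) := {p | p.2 ∈ D p.1}
  have hSfin : ∀ N : ℕ, {p : ℕ × X | p ∈ S ∧ p.1 < N}.Finite := by
    intro N
    refine Set.Finite.subset (Set.Finite.biUnion (Set.finite_lt_nat N)
      (fun n _ => (Set.finite_singleton n).prod (hDfin n))) ?_
    rintro ⟨n, d⟩ ⟨h1, h2⟩
    simp only [Set.mem_iUnion]
    exact ⟨n, h2, rfl, h1⟩
  have hScount : S.Countable := by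
    have : S ⊆ ⋃ N : ℕ, {p : ℕ × X | p ∈ S ∧ p.1 < N} := by
      intro p hp
      exact Set.mem_iUnion.2 ⟨p.1 + 1, hp, Nat.lt_succ_self _⟩
    exact (Set.countable_iUnion (fun N => (hSfin N).countable)).mono this
  have : Countable S := hScount.to_subtype
  obtain ⟨e, he⟩ := exists_injective_nat S
  let z : ℕ → X := Function.extend e (fun p : S => ((2 : ℂ) ^ (p.1.1 + 1)) • p.1.2) 0
  have hz : ∀ p : S, z (e p) = ((2 : ℂ) ^ (p.1.1 + 1)) • p.1.2 := fun p => he.extend_apply _ _ _
  refine ⟨z, ?_, ?_⟩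
  · rw [tendsto_zero_iff_norm_tendsto_zero, ← Nat.cofinite_eq_atTop]
    rw [Metric.tendsto_nhds]
    intro ε hε
    obtain ⟨N, hN⟩ := exists_pow_lt_of_lt_one (show (0 : ℝ) < ε / 4 by positivity)
      (show (1 / 2 : ℝ) < 1 by norm_num)
    have : {k : ℕ | ¬ dist ‖z k‖ 0 < ε} ⊆
        e '' {p : S | p.1.1 < N + 1} := by
      intro k hk
      rcases Classical.em (∃ p : S, e p = k) with hke | hke
      · obtain ⟨p, rfl⟩ := hke
        refine ⟨p, ?_, rfl⟩
        by_contra hp
        have hp' : N + 1 ≤ p.1.1 := by simpa using hp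
        apply hk
        rw [hz, dist_zero_right, norm_norm, norm_smul, norm_pow]
        have h1 : ‖p.1.2‖ ≤ 2 * (1 / 4) ^ p.1.1 := hDn _ (by omega) _ p.2
        have h2 : ‖(2 : ℂ)‖ = 2 := by simp
        rw [h2]
        calc (2 : ℝ) ^ (p.1.1 + 1) * ‖p.1.2‖ ≤ 2 ^ (p.1.1 + 1) * (2 * (1 / 4) ^ p.1.1) := by gcongr
          _ = 4 * (1 / 2) ^ p.1.1 := by
              rw [pow_succ, show (1 / 4 : ℝ) = (1 / 2) * (1 / 2) by norm_num, mul_pow]
              have : (2 : ℝ) ^ p.1.1 * (1 / 2) ^ p.1.1 = 1 := by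
                rw [← mul_pow]; norm_num
              linear_combination (4 * (1 / 2 : ℝ) ^ p.1.1) * this
          _ ≤ 4 * (1 / 2) ^ N := by
              have : (1 / 2 : ℝ) ^ p.1.1 ≤ (1 / 2) ^ N :=
                pow_le_pow_of_le_one (by norm_num) (by norm_num) (by omega)
              linarith
          _ < ε := by linarith
      · exfalso
        apply hk
        have : z k = 0 := Function.extend_apply' _ _ _ hke
        rw [this]; simpa using hε
    refine Set.Finite.subset (Set.Finite.image e ?_) this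
    have hinj : Set.InjOn (Subtype.val : S → ℕ × X) {p : S | p.1.1 < N + 1} :=
      Subtype.val_injective.injOn
    refine Set.Finite.of_finite_image ?_ hinj
    refine (hSfin (N + 1)).subset ?_
    rintro _ ⟨p, hp, rfl⟩
    exact ⟨p.2, hp⟩
  · intro x hx
    have hf : ∀ n, ∃ f ∈ F n, dist x f < (1 / 4) ^ (n + 1) := by
      intro n
      have := hFcov n hx
      simp only [Set.mem_iUnion, Metric.mem_ball] at this
      obtain ⟨f, hf, hd⟩ := this
      exact ⟨f, hf, hd⟩
    choose f hfF hfd using hf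
    let d : ℕ → X := fun n => Nat.rec (f 0) (fun n _ => f (n + 1) - f n) n
    have hd0 : d 0 = f 0 := rfl
    have hdS : ∀ n, d (n + 1) = f (n + 1) - f n := fun n => rfl
    have hdD : ∀ n, d n ∈ D n := by
      intro n
      cases n with
      | zero => exact hfF 0
      | succ n =>
        rw [hDS]
        refine ⟨⟨(f (n + 1), f n), ⟨hfF _, hfF _⟩, rfl⟩, ?_⟩
        rw [hdS]
        have h1 := hfd n
        have h2 := hfd (n + 1)
        have h3 : ‖f (n + 1) - f n‖ ≤ dist x (f (n + 1)) + dist x (f n) := by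
          rw [← dist_eq_norm]
          have := dist_triangle_left (f (n + 1)) (f n) x
          linarith
        have h4' : (1 / 4 : ℝ) ^ (n + 1 + 1) ≤ (1 / 4) ^ (n + 1) :=
          pow_le_pow_of_le_one (by norm_num) (by norm_num) (by omega)
        linarith
    have hsum : ∀ n, ∑ i ∈ Finset.range (n + 1), d i = f n := by
      intro n
      induction n with
      | zero => simp [hd0]
      | succ n ih => rw [Finset.sum_range_succ, ih, hdS]; abel
    let p : ℕ → S := fun n => ⟨(n, d n), hdD n⟩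
    let k : ℕ → ℕ := fun n => e (p n)
    have hk : Function.Injective k := by
      intro n m h
      have h1 := he h
      have h2 := congrArg (fun q : S => q.1.1) h1
      exact h2
    have hgeo : HasSum (fun n : ℕ => (1 / 2 : ℝ) ^ (n + 1)) 1 := by
      have h1 := (hasSum_geometric_of_lt_one (show (0 : ℝ) ≤ 1 / 2 by norm_num)
        (show (1 / 2 : ℝ) < 1 by norm_num)).mul_left (1 / 2)
      have h2 : (1 / 2 : ℝ) * (1 - 1 / 2)⁻¹ = 1 := by norm_num
      rw [h2] at h1
      have h3 : (fun n : ℕ => (1 / 2 : ℝ) ^ (n + 1)) = fun n : ℕ => (1 / 2 : ℝ) * (1 / 2) ^ n := by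
        funext n; rw [pow_succ]; ring
      rw [h3]; exact h1
    let a : ℕ → ℂ := Function.extend k (fun n => (1 / 2 : ℂ) ^ (n + 1)) 0
    have ha : ∀ n, a (k n) = (1 / 2 : ℂ) ^ (n + 1) := fun n => hk.extend_apply _ _ _
    have ha0 : ∀ j, (¬ ∃ n, k n = j) → a j = 0 := fun j hj => Function.extend_apply' _ _ _ hj
    have hnorm : (fun n => ‖a n‖) = Function.extend k (fun n => (1 / 2 : ℝ) ^ (n + 1)) 0 := by
      funext j
      by_cases hj : ∃ n, k n = j
      · obtain ⟨n, rfl⟩ := hj
        rw [ha, hk.extend_apply, norm_pow]; norm_num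
      · rw [ha0 j hj, Function.extend_apply' _ _ _ hj]; simp
    have hS1 : HasSum (fun n => ‖a n‖) 1 := by
      rw [hnorm]; exact (hasSum_extend_zero hk).2 hgeo
    refine ⟨a, hS1.summable, hS1.tsum_eq.le, ?_⟩
    have hterm : (fun j => a j • z j) = Function.extend k d 0 := by
      funext j
      by_cases hj : ∃ n, k n = j
      · obtain ⟨n, rfl⟩ := hj
        rw [ha, hk.extend_apply]
        have : z (k n) = ((2 : ℂ) ^ (n + 1)) • d n := hz (p n)
        rw [this, smul_smul, ← mul_pow]; norm_num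
      · rw [ha0 j hj, Function.extend_apply' _ _ _ hj]; simp
    have hds : HasSum d x := by
      have hsm : Summable d := by
        refine Summable.of_norm ?_
        rw [← summable_nat_add_iff 1]
        refine Summable.of_nonneg_of_le (fun n => norm_nonneg _)
          (fun n => hDn (n + 1) (by omega) _ (hdD (n + 1))) ?_
        have h1 := (summable_geometric_of_lt_one (show (0 : ℝ) ≤ 1 / 4 by norm_num)
          (show (1 / 4 : ℝ) < 1 by norm_num)).mul_left 2
        exact (summable_nat_add_iff 1).2 h1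
      have h2 := hsm.hasSum.tendsto_sum_nat
      have h3 : Tendsto (fun n => ∑ i ∈ Finset.range (n + 1), d i) atTop (𝓝 (∑' i, d i)) :=
        h2.comp (tendsto_add_atTop_nat 1)
      have h4'' : Tendsto f atTop (𝓝 x) := by
        rw [tendsto_iff_dist_tendsto_zero]
        refine squeeze_zero (fun n => dist_nonneg) (fun n => ?_)
          ((tendsto_pow_atTop_nhds_zero_of_lt_one (show (0 : ℝ) ≤ 1 / 4 by norm_num)
            (show (1 / 4 : ℝ) < 1 by norm_num)).comp (tendsto_add_atTop_nat 1))
        rw [dist_comm]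
        exact (hfd n).le
      have h5 : ∑' i, d i = x := by
        refine tendsto_nhds_unique (h3.congr hsum) h4''
      rw [← h5]; exact hsm.hasSum
    rw [hterm]
    exact ((hasSum_extend_zero hk).2 hds).tsum_eq.symm

end Pool.Agent.Helper63.LS
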