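import Pool.Agent.Helper25.LS.Defs

/-!
# LS-SP: the eigenvalues of large compressions are small
-/

set_option autoImplicit false

open Filter Topology Module

noncomputable section

namespace Pool.Agent.Helper63.LS

open Pool.Agent.Helper25.LS

/-- the operators `T - μ` are uniformly bounded below for `|μ| ≥ r` -/
theorem below (X : Type) [NormedAddCommGroup X] [NormedSpace ℂ X] (T : X →L[ℂ] X)
    (hT : IsCompactOperator T) (hE : NoEig X T) (r : ℝ) (hr : 0 < r) :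
    ∃ c : ℝ, 0 < c ∧ ∀ (μ : ℂ) (v : X), r ≤ ‖μ‖ → c * ‖v‖ ≤ ‖T v - μ • v‖ := by
  by_contra hcon
  push Not at hcon
  have h1 : ∀ n : ℕ, ∃ (μ : ℂ) (u : X), r ≤ ‖μ‖ ∧ ‖u‖ = 1 ∧ ‖T u - μ • u‖ < 1 / ((n : ℝ) + 1) := by
    intro n
    obtain ⟨μ, v, hμ, hv⟩ := hcon (1 / ((n : ℝ) + 1)) (by positivity)
    have hv0 : v ≠ 0 := by
      rintro rfl
      simp at hv
    have hvn : 0 < ‖v‖ := norm_pos_iff.2 hv0
    refine ⟨μ, ((‖v‖ : ℂ)⁻¹) • v, hμ, ?_, ?_⟩
    · rw [norm_smul, norm_inv, Complex.norm_real, norm_norm, inv_mul_cancel₀ hvn.ne']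
    · have : T (((‖v‖ : ℂ)⁻¹) • v) - μ • (((‖v‖ : ℂ)⁻¹) • v) = ((‖v‖ : ℂ)⁻¹) • (T v - μ • v) := by
        rw [map_smul, smul_sub, smul_comm]
      rw [this, norm_smul, norm_inv, Complex.norm_real, norm_norm, inv_mul_lt_iff₀ hvn]
      linarith
  choose μ u hμ hu hTu using h1
  have hbd : ∀ n, ‖μ n‖ ≤ ‖T‖ + 1 := by
    intro n
    have h2 : ‖μ n • u n‖ = ‖μ n‖ := by rw [norm_smul, hu, mul_one]
    have h3 : ‖μ n • u n‖ ≤ ‖T (u n)‖ + ‖T (u n) - μ n • u n‖ := by
      have : μ n • u n = T (u n) - (T (u n) - μ n • u n) := by abel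
      calc ‖μ n • u n‖ = ‖T (u n) - (T (u n) - μ n • u n)‖ := by rw [← this]
        _ ≤ _ := norm_sub_le _ _
    have h4 : ‖T (u n)‖ ≤ ‖T‖ := by
      have := T.le_opNorm (u n); rwa [hu, mul_one] at this
    have h5 : 1 / ((n : ℝ) + 1) ≤ 1 := by
      rw [div_le_one (by positivity)]
      have : (0 : ℝ) ≤ n := by positivity
      linarith
    have h6 := hTu n
    linarith
  obtain ⟨C, hC, hCs⟩ := hT.image_closedBall_subset_compact (f := (T : X →ₗ[ℂ] X)) 1
  have hcomp : IsCompact ((Metric.closedBall (0 : ℂ) (‖T‖ + 1)) ×ˢ C) :=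
    (isCompact_closedBall _ _).prod hC
  have hmem : ∀ n, (μ n, T (u n)) ∈ (Metric.closedBall (0 : ℂ) (‖T‖ + 1)) ×ˢ C := by
    intro n
    refine ⟨by simpa using hbd n, hCs ⟨u n, by simp [hu], rfl⟩⟩
  obtain ⟨⟨m, y⟩, _, φ, hφ, hlim⟩ := hcomp.tendsto_subseq hmem
  have hm : Tendsto (fun n => μ (φ n)) atTop (𝓝 m) := (continuous_fst.tendsto _).comp hlim
  have hy : Tendsto (fun n => T (u (φ n))) atTop (𝓝 y) := (continuous_snd.tendsto _).comp hlim
  have hmr : r ≤ ‖m‖ := ge_of_tendsto' hm.norm (fun n => hμ _)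
  have hm0 : m ≠ 0 := by
    rintro rfl
    rw [norm_zero] at hmr
    linarith
  have hdiff : Tendsto (fun n => T (u (φ n)) - μ (φ n) • u (φ n)) atTop (𝓝 0) := by
    rw [tendsto_zero_iff_norm_tendsto_zero]
    refine squeeze_zero (fun n => norm_nonneg _) (fun n => (hTu (φ n)).le) ?_
    exact tendsto_one_div_add_atTop_nhds_zero_nat.comp hφ.tendsto_atTop
  have hmu : Tendsto (fun n => μ (φ n) • u (φ n)) atTop (𝓝 y) := by
    have := hy.sub hdiff
    simpa using this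
  have huu : Tendsto (fun n => u (φ n)) atTop (𝓝 (m⁻¹ • y)) := by
    have h7 := (hm.inv₀ hm0).smul hmu
    refine h7.congr (fun n => ?_)
    have : μ (φ n) ≠ 0 := by
      intro h
      have := hμ (φ n)
      rw [h, norm_zero] at this
      linarith
    rw [smul_smul, inv_mul_cancel₀ this, one_smul]
  have hn1 : ‖m⁻¹ • y‖ = 1 := by
    have := huu.norm
    simp only [hu] at this
    exact (tendsto_nhds_unique this tendsto_const_nhds)
  have hTv : T (m⁻¹ • y) = y := tendsto_nhds_unique ((T.continuous.tendsto _).comp huu) hy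
  have := hE m (m⁻¹ • y) hm0 (by rw [hTv, smul_smul, mul_inv_cancel₀ hm0, one_smul])
  rw [this, norm_zero] at hn1
  exact zero_ne_one hn1

theorem sp : S_SP := by
  intro H _ _ _ T hT hE r hr
  obtain ⟨c, hc, hcv⟩ := below H T hT hE r hr
  obtain ⟨C, hC, hCs⟩ := hT.image_closedBall_subset_compact (f := (T : H →ₗ[ℂ] H)) 1
  obtain ⟨F, hFC, hFfin, hFcov⟩ := hC.finite_cover_balls (show (0 : ℝ) < c / 4 by positivity)
  refine ⟨Submodule.span ℂ F, FiniteDimensional.span_of_finite ℂ hFfin, ?_⟩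
  intro E _ hFE μ v hμ hv
  by_contra hv0
  have hvn : 0 < ‖(v : H)‖ := by
    rw [norm_pos_iff]; intro h; exact hv0 (Subtype.ext h)
  -- the distance of `T u` to `E`
  have hball : ∀ u : H, ‖u‖ = 1 → ‖T u - (E.orthogonalProjectionOnto (T u) : H)‖ ≤ c / 4 := by
    intro u hu
    have h1 : T u ∈ C := hCs ⟨u, by simp [hu], rfl⟩
    have h2 := hFcov h1
    simp only [Set.mem_iUnion, Metric.mem_ball] at h2
    obtain ⟨f, hf, hd⟩ := h2
    have hfE : f ∈ E := hFE (Submodule.subset_span hf)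
    have h3 : ‖T u - (E.orthogonalProjectionOnto (T u) : H)‖ ≤ ‖T u - f‖ := by
      have h4 := Submodule.starProjection_minimal (U := E) (T u)
      change ‖T u - E.starProjection (T u)‖ ≤ _
      rw [h4]
      exact ciInf_le ⟨0, by rintro _ ⟨x, rfl⟩; exact norm_nonneg _⟩ (⟨f, hfE⟩ : E)
    rw [dist_eq_norm] at hd
    linarith
  have key : ‖T v - (E.orthogonalProjectionOnto (T v) : H)‖ ≤ c / 4 * ‖(v : H)‖ := by
    have h1 := hball (((‖(v : H)‖ : ℂ)⁻¹) • (v : H)) (by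
      rw [norm_smul, norm_inv, Complex.norm_real, norm_norm, inv_mul_cancel₀ hvn.ne'])
    have h2 : T (((‖(v : H)‖ : ℂ)⁻¹) • (v : H)) -
        (E.orthogonalProjectionOnto (T (((‖(v : H)‖ : ℂ)⁻¹) • (v : H))) : H) =
        ((‖(v : H)‖ : ℂ)⁻¹) • (T v - (E.orthogonalProjectionOnto (T v) : H)) := by
      rw [map_smul, map_smul, smul_sub]
      rfl
    rw [h2, norm_smul, norm_inv, Complex.norm_real, norm_norm, inv_mul_le_iff₀ hvn] at h1
    linarith
  have hPv : (E.orthogonalProjectionOnto (T v) : H) = μ • (v : H) := by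
    have := congrArg (fun w : E => (w : H)) hv
    exact this
  rw [hPv] at key
  have := hcv μ v hμ
  nlinarith

end Pool.Agent.Helper63.LS
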